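import Mathlib
import Pool.Agent.Helper234.MaxLR.Main

set_option autoImplicit false

namespace Pool.Agent.Results.MP_27ef93_an.MaxNotLocallyReflexive

/-- The Banach space `B(H)` of bounded operators on the Hilbert space `H`. -/
def BO (H : Type) [NormedAddCommGroup H] [InnerProductSpace ℂ H] : Type := H →L[ℂ] H

noncomputable instance instNACG (H : Type) [NormedAddCommGroup H] [InnerProductSpace ℂ H] :
    NormedAddCommGroup (BO H) := inferInstanceAs (NormedAddCommGroup (H →L[ℂ] H))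

noncomputable instance instNS (H : Type) [NormedAddCommGroup H] [InnerProductSpace ℂ H] :
    NormedSpace ℂ (BO H) := inferInstanceAs (NormedSpace ℂ (H →L[ℂ] H))

/-- The operator `a` applied to the vector `x`. -/
def app {H : Type} [NormedAddCommGroup H] [InnerProductSpace ℂ H] (a : BO H) (x : H) : H :=
  (show H →L[ℂ] H from a) x

/-- The matrix `a` over `B(H)`, acting on `H^n`, has operator norm at most `c`. -/
def OpLE {H : Type} [NormedAddCommGroup H] [InnerProductSpace ℂ H] {n : ℕ}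
    (a : Fin n → Fin n → BO H) (c : ℝ) : Prop :=
  0 ≤ c ∧ ∀ ξ : Fin n → H, ∑ i, ‖∑ j, app (a i j) (ξ j)‖ ^ 2 ≤ c ^ 2 * ∑ j, ‖ξ j‖ ^ 2

/-- The scalar matrix `a` has operator norm at most `c`. -/
def ScLE {ι : Type} [Fintype ι] (a : ι → ι → ℂ) (c : ℝ) : Prop :=
  0 ≤ c ∧ ∀ ξ : ι → ℂ, ∑ i, ‖∑ j, a i j * ξ j‖ ^ 2 ≤ c ^ 2 * ∑ j, ‖ξ j‖ ^ 2

/-- A family of matrix norms on `X`, given by the relations: the norm of the `n × n` matrix `x` is
at most `c`. -/
abbrev MatNorm (X : Type) : Type := ∀ n : ℕ, (Fin n → Fin n → X) → ℝ → Prop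

/-- The matrix norms of a subspace of `B(H)`. -/
def concN {H : Type} [NormedAddCommGroup H] [InnerProductSpace ℂ H]
    (E : Submodule ℂ (BO H)) : MatNorm E :=
  fun _ x c => OpLE (fun i j => (x i j : BO H)) c

/-- The maximal operator space structure on `F`. -/
def maxN (F : Type) [NormedAddCommGroup F] [NormedSpace ℂ F] : MatNorm F :=
  fun _ x c => 0 ≤ c ∧ ∀ (H : Type) [NormedAddCommGroup H] [InnerProductSpace ℂ H]
    [CompleteSpace H] (w : F →L[ℂ] BO H), ‖w‖ ≤ 1 → OpLE (fun i j => w (x i j)) c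

/-- The dual Banach space `X*`. -/
def Du (X : Type) [NormedAddCommGroup X] [NormedSpace ℂ X] : Type := X →L[ℂ] ℂ

noncomputable instance instDuNACG (X : Type) [NormedAddCommGroup X] [NormedSpace ℂ X] :
    NormedAddCommGroup (Du X) := inferInstanceAs (NormedAddCommGroup (X →L[ℂ] ℂ))

noncomputable instance instDuNS (X : Type) [NormedAddCommGroup X] [NormedSpace ℂ X] :
    NormedSpace ℂ (Du X) := inferInstanceAs (NormedSpace ℂ (X →L[ℂ] ℂ))

/-- The value of the functional `f` at `x`. -/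
noncomputable def ev {X : Type} [NormedAddCommGroup X] [NormedSpace ℂ X] (f : Du X) (x : X) : ℂ :=
  (show X →L[ℂ] ℂ from f) x

/-- The dual matrix norms: `f ∈ M_n(X*)` is identified with a map `X → M_n`, with its completely
bounded norm. -/
def dualN {X : Type} [NormedAddCommGroup X] [NormedSpace ℂ X] (N : MatNorm X) : MatNorm (Du X) :=
  fun n f c => 0 ≤ c ∧ ∀ (m : ℕ) (x : Fin m → Fin m → X) (d : ℝ), N m x d →
    ScLE (fun p q : Fin n × Fin m => ev (f p.1 q.1) (x p.2 q.2)) (c * d)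

/-- `u` is completely bounded with `‖u‖_cb ≤ lam`. -/
def CBLE {X Y : Type} [AddCommGroup X] [Module ℂ X] [AddCommGroup Y] [Module ℂ Y]
    (N : MatNorm X) (M : MatNorm Y) (u : X →ₗ[ℂ] Y) (lam : ℝ) : Prop :=
  ∀ (n : ℕ) (x : Fin n → Fin n → X) (c : ℝ), N n x c → M n (fun i j => u (x i j)) (lam * c)

/-- The linear map `u : E → X**` is a limit, for the topology of pointwise `σ(X**, X*)` convergence,
of linear maps `E → X` of completely bounded norm at most `lam`. -/
def Approximable {X : Type} [NormedAddCommGroup X] [NormedSpace ℂ X] (N : MatNorm X)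
    {E : Type} [AddCommGroup E] [Module ℂ E] (M : MatNorm E) (u : E →ₗ[ℂ] Du (Du X))
    (lam : ℝ) : Prop :=
  ∀ (S : Finset E) (T : Finset (Du X)) (ε : ℝ), 0 < ε →
    ∃ v : E →ₗ[ℂ] X, CBLE M N v lam ∧ ∀ x ∈ S, ∀ f ∈ T, ‖ev f (v x) - ev (u x) f‖ < ε

/-- `lam`-local reflexivity. -/
def LocallyReflexive {X : Type} [NormedAddCommGroup X] [NormedSpace ℂ X] (N : MatNorm X)
    (lam : ℝ) : Prop :=
  ∀ (H : Type) [NormedAddCommGroup H] [InnerProductSpace ℂ H] [CompleteSpace H]
    (E : Submodule ℂ (BO H)) [FiniteDimensional ℂ E] (u : E →ₗ[ℂ] Du (Du X)),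
    CBLE (concN E) (dualN (dualN N)) u 1 → Approximable N (concN E) u lam

/-- For every `lam ≥ 1` the operator space `max(B(ℓ²))` is not `lam`-locally reflexive. -/
theorem result (lam : ℝ) (hlam : 1 ≤ lam) :
    ¬ LocallyReflexive (maxN (BO (lp (fun _ : ℕ => ℂ) 2))) lam :=
  Pool.Agent.Helper234.MaxLR.locRefl_false lam hlam

end Pool.Agent.Results.MP_27ef93_an.MaxNotLocallyReflexive
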