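import Mathlib
import Pool.Agent.Helper234.Calkin.Main

set_option autoImplicit false

namespace Pool.Agent.Results.MP_27ef93_an.NoCalkinLifting

open Pool.Agent.Helper234.Calkin (BH)

/-- The closed subspace of compact operators in `B(H)`. -/
noncomputable def Kom (H : Type) [NormedAddCommGroup H] [InnerProductSpace ℂ H] :
    Submodule ℂ (H →L[ℂ] H) :=
  compactOperator (RingHom.id ℂ) H H

/-- The linear map `u : X → B(H)/K(H)` is bounded by `C` for the quotient norm. -/
def BoundedBy {H : Type} [NormedAddCommGroup H] [InnerProductSpace ℂ H]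
    {X : Type} [NormedAddCommGroup X] [NormedSpace ℂ X]
    (u : X →ₗ[ℂ] (H →L[ℂ] H) ⧸ Kom H) (C : ℝ) : Prop :=
  ∀ x, ‖u x‖ ≤ C * ‖x‖

/-- The linear map `u : X → B(H)/K(H)` has a linear lifting `X → B(H)` bounded by `C`. -/
def HasLiftingOfNormLE {H : Type} [NormedAddCommGroup H] [InnerProductSpace ℂ H]
    {X : Type} [NormedAddCommGroup X] [NormedSpace ℂ X]
    (u : X →ₗ[ℂ] (H →L[ℂ] H) ⧸ Kom H) (C : ℝ) : Prop :=
  ∃ v : X →ₗ[ℂ] (H →L[ℂ] H), (∀ x, (Kom H).mkQ (v x) = u x) ∧ ∀ x, ‖v x‖ ≤ C * ‖x‖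

/-- Every linear map from a separable Banach space to `B(H)/K(H)` bounded by `C` has a linear lifting
to `B(H)` bounded by `lam * C`. -/
def LiftingProperty (H : Type) [NormedAddCommGroup H] [InnerProductSpace ℂ H] (lam : ℝ) : Prop :=
  ∀ (X : Type) [NormedAddCommGroup X] [NormedSpace ℂ X] [CompleteSpace X]
    [TopologicalSpace.SeparableSpace X] (u : X →ₗ[ℂ] (H →L[ℂ] H) ⧸ Kom H) (C : ℝ),
    BoundedBy u C → HasLiftingOfNormLE u (lam * C)

/-- Some contractive linear map from a separable Banach space to `B(H)/K(H)` has no bounded linear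
lifting to `B(H)` at all. -/
def ExistsUnliftable (H : Type) [NormedAddCommGroup H] [InnerProductSpace ℂ H] : Prop :=
  ∃ (X : Type) (_ : NormedAddCommGroup X) (_ : NormedSpace ℂ X) (_ : CompleteSpace X)
    (_ : TopologicalSpace.SeparableSpace X) (u : X →ₗ[ℂ] (H →L[ℂ] H) ⧸ Kom H),
    BoundedBy u 1 ∧ ∀ C : ℝ, ¬ HasLiftingOfNormLE u C

/-- For `H = ℓ²(ℕ)`: for no constant `lam` does every bounded linear map `u` from a separable Banach
space into the Calkin algebra have a lifting of norm at most `lam * ‖u‖`; in fact some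
contractive `u` has no bounded lifting at all. -/
theorem result :
    (∀ lam : ℝ, ¬ LiftingProperty (lp (fun _ : ℕ => ℂ) 2) lam) ∧
      ExistsUnliftable (lp (fun _ : ℕ => ℂ) 2) := by
  have hcl : IsClosed (Kom (lp (fun _ : ℕ => ℂ) 2) : Set BH) := isClosed_setOfPred_isCompactOperator
  have key : ExistsUnliftable (lp (fun _ : ℕ => ℂ) 2) := by
    obtain ⟨S, hS1, hS2, hS3, hS4⟩ := Pool.Agent.Helper234.Calkin.main
    let nq : NormedAddCommGroup (BH ⧸ (Kom (lp (fun _ : ℕ => ℂ) 2))) := Submodule.Quotient.normedAddCommGroup (Kom (lp (fun _ : ℕ => ℂ) 2))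
    let ns : NormedSpace ℂ (BH ⧸ (Kom (lp (fun _ : ℕ => ℂ) 2))) := Submodule.Quotient.normedSpace (Kom (lp (fun _ : ℕ => ℂ) 2)) ℂ
    have hqc : Continuous (fun x : BH => (Submodule.Quotient.mk x : BH ⧸ (Kom (lp (fun _ : ℕ => ℂ) 2)))) := by
      refine LipschitzWith.continuous (K := 1) ?_
      refine LipschitzWith.of_dist_le_mul fun x y => ?_
      rw [dist_eq_norm, dist_eq_norm, ← Submodule.Quotient.mk_sub, NNReal.coe_one, one_mul]
      exact Submodule.Quotient.norm_mk_le (Kom (lp (fun _ : ℕ => ℂ) 2)) (x - y)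
    let X : Submodule ℂ (BH ⧸ (Kom (lp (fun _ : ℕ => ℂ) 2))) := ((S.toSubmodule).map (Kom (lp (fun _ : ℕ => ℂ) 2)).mkQ).topologicalClosure
    have hXsep : TopologicalSpace.IsSeparable (X : Set (BH ⧸ (Kom (lp (fun _ : ℕ => ℂ) 2)))) := by
      have h1 : TopologicalSpace.IsSeparable
          ((fun x : BH => (Submodule.Quotient.mk x : BH ⧸ (Kom (lp (fun _ : ℕ => ℂ) 2)))) '' (S : Set BH)) := hS2.image hqc
      have h2 : (X : Set (BH ⧸ (Kom (lp (fun _ : ℕ => ℂ) 2)))) =
          closure ((fun x : BH => (Submodule.Quotient.mk x : BH ⧸ (Kom (lp (fun _ : ℕ => ℂ) 2)))) '' (S : Set BH)) := by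
        rw [Submodule.topologicalClosure_coe]
        rfl
      rw [h2]
      exact h1.closure
    have hXcl : IsClosed (X : Set (BH ⧸ (Kom (lp (fun _ : ℕ => ℂ) 2)))) := Submodule.isClosed_topologicalClosure _
    have hcomp : CompleteSpace (BH ⧸ (Kom (lp (fun _ : ℕ => ℂ) 2))) := Submodule.Quotient.completeSpace (Kom (lp (fun _ : ℕ => ℂ) 2))
    refine ⟨X, inferInstance, inferInstance, hXcl.completeSpace_coe, hXsep.separableSpace,
      X.subtype, fun x => by rw [one_mul]; exact le_refl _, ?_⟩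
    rintro C ⟨v, hv, hvC⟩
    have hmem : ∀ a : S, (Submodule.Quotient.mk (a : BH) : BH ⧸ (Kom (lp (fun _ : ℕ => ℂ) 2))) ∈ X := fun a =>
      Submodule.le_topologicalClosure _ ⟨(a : BH), a.2, rfl⟩
    let j : S →ₗ[ℂ] X :=
      { toFun := fun a => ⟨Submodule.Quotient.mk (a : BH), hmem a⟩
        map_add' := fun a b => rfl
        map_smul' := fun c a => rfl }
    refine hS4 (v.comp j) |C| ?_ ?_ ?_
    · intro a
      have h1 : ‖v (j a)‖ ≤ C * ‖j a‖ := hvC _
      have h2 : ‖j a‖ ≤ ‖(a : BH)‖ := Submodule.Quotient.norm_mk_le (Kom (lp (fun _ : ℕ => ℂ) 2)) (a : BH)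
      have h3 : 0 ≤ ‖j a‖ := norm_nonneg (j a)
      refine h1.trans ?_
      exact (mul_le_mul_of_nonneg_right (le_abs_self C) h3).trans
        (mul_le_mul_of_nonneg_left h2 (abs_nonneg C))
    · intro a ha
      have h1 : j a = 0 := by
        apply Subtype.ext
        exact (Submodule.Quotient.mk_eq_zero (Kom (lp (fun _ : ℕ => ℂ) 2))).2 ha
      show v (j a) = 0
      rw [h1, map_zero]
    · intro a
      have h1 : (Submodule.Quotient.mk (v (j a)) : BH ⧸ (Kom (lp (fun _ : ℕ => ℂ) 2))) = Submodule.Quotient.mk (a : BH) :=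
        hv (j a)
      have h2 := (Submodule.Quotient.eq (Kom (lp (fun _ : ℕ => ℂ) 2))).1 h1
      have h3 : (a : BH) - v (j a) ∈ Kom (lp (fun _ : ℕ => ℂ) 2) := by
        have := (Kom (lp (fun _ : ℕ => ℂ) 2)).neg_mem h2
        rwa [neg_sub] at this
      exact h3
  refine ⟨?_, key⟩
  intro lam H
  obtain ⟨X, i1, i2, i3, i4, u, hu, hno⟩ := key
  exact hno _ (H X u 1 hu)

end Pool.Agent.Results.MP_27ef93_an.NoCalkinLifting
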